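import Pool.Agent.U728.KP.Stm

set_option autoImplicit false

/-! Project KP, package UP: semi-saturated graphs from coverings of the cube. -/

open Finset

namespace Pool.Agent.U27.KP

open Pool.Agent.Results.MP_71830d_co.Separation Pool.Agent.U728.KP

/-- the first part of a word -/
def lf {a b : ℕ} (x : Fin (a + b) → Bool) : Fin a → Bool := fun i => x (Fin.castAdd b i)

/-- the second part of a word -/
def rt {a b : ℕ} (x : Fin (a + b) → Bool) : Fin b → Bool := fun j => x (Fin.natAdd a j)

theorem cast_ne {a b : ℕ} (i : Fin a) (j : Fin b) : Fin.castAdd b i ≠ Fin.natAdd a j := by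
  intro h
  have := congrArg Fin.val h
  simp only [Fin.val_castAdd, Fin.val_natAdd] at this
  omega

theorem lf_l {a b : ℕ} (x : Fin (a + b) → Bool) (i : Fin a) :
    lf (flp x (Fin.castAdd b i)) = flp (lf x) i := by
  funext k
  by_cases h : k = i
  · subst h
    rw [flp_self]
    exact flp_self _ _
  · rw [flp_of_ne _ h]
    exact flp_of_ne _ (fun hc => h (Fin.castAdd_injective a b hc))

theorem lf_r {a b : ℕ} (x : Fin (a + b) → Bool) (j : Fin b) :
    lf (flp x (Fin.natAdd a j)) = lf x := by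
  funext k
  exact flp_of_ne _ (cast_ne k j)

theorem rt_r {a b : ℕ} (x : Fin (a + b) → Bool) (j : Fin b) :
    rt (flp x (Fin.natAdd a j)) = flp (rt x) j := by
  funext k
  by_cases h : k = j
  · subst h
    rw [flp_self]
    exact flp_self _ _
  · rw [flp_of_ne _ h]
    exact flp_of_ne _ (fun hc => h (Fin.natAdd_injective b a hc))

theorem rt_l {a b : ℕ} (x : Fin (a + b) → Bool) (i : Fin a) :
    rt (flp x (Fin.castAdd b i)) = rt x := by
  funext k
  exact flp_of_ne _ (cast_ne i k).symm

theorem cov_flp {n : ℕ} {C : Finset (Fin n → Bool)} (hC : Cov C) {x : Fin n → Bool} (hx : x ∉ C) :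
    ∃ j, flp x j ∈ C := by
  obtain ⟨c, hc, hd⟩ := hC x
  have h1 : hammingDist x c ≠ 0 := by
    intro h
    rw [hammingDist_eq_zero] at h
    exact hx (h ▸ hc)
  have h2 : (Q n).Adj x c := by
    change hammingDist x c = 1
    omega
  obtain ⟨j, rfl⟩ := adj_flp h2
  exact ⟨j, hc⟩

section count

variable {n : ℕ} (P : (Fin n → Bool) → Prop) [DecidablePred P]

theorem cnt_two (i : Fin n) : (univ.filter fun v => P v ∨ P (flp v i)).card ≤
    2 * (univ.filter fun v => P v).card := by
  rw [filter_or]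
  refine (card_union_le _ _).trans ?_
  have h : (univ.filter fun v => P (flp v i)).card = (univ.filter fun v => P v).card := by
    refine card_bij (fun v _ => flp v i) ?_ ?_ ?_
    · intro v hv
      rw [mem_filter] at hv ⊢
      exact ⟨mem_univ _, hv.2⟩
    · intro v _ w _ h
      have := congrArg (fun u => flp u i) h
      simpa only [flp_flp] using this
    · intro v hv
      rw [mem_filter] at hv
      refine ⟨flp v i, ?_, flp_flp v i⟩
      rw [mem_filter, flp_flp]
      exact ⟨mem_univ _, hv.2⟩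
  have e : (univ.filter fun v => P v).card + (univ.filter fun v => P (flp v i)).card ≤
      2 * (univ.filter fun v => P v).card := by omega
  exact e

theorem cnt_one (i : Fin n) (h : ∀ v, P (flp v i) ↔ P v) :
    (univ.filter fun v => P v ∨ P (flp v i)).card = (univ.filter fun v => P v).card := by
  congr 1
  ext v
  simp [h v]

end count

theorem card_l {a b : ℕ} (C : Finset (Fin a → Bool)) :
    (univ.filter fun x : Fin (a + b) → Bool => lf x ∈ C).card ≤ C.card * 2 ^ b := by
  have h : (C ×ˢ (univ : Finset (Fin b → Bool))).card = C.card * 2 ^ b := by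
    rw [card_product]
    simp
  rw [← h]
  refine card_le_card_of_injOn (fun x => (lf x, rt x)) ?_ ?_
  · intro x hx
    have hx' := (mem_filter.1 hx).2
    exact mem_product.2 ⟨hx', mem_univ _⟩
  · intro x _ y _ hxy
    have h1 : lf x = lf y := congrArg Prod.fst hxy
    have h2 : rt x = rt y := congrArg Prod.snd hxy
    funext k
    refine Fin.addCases (fun i => ?_) (fun j => ?_) k
    · exact congrFun h1 i
    · exact congrFun h2 j

theorem card_r {a b : ℕ} (C : Finset (Fin b → Bool)) :
    (univ.filter fun x : Fin (a + b) → Bool => rt x ∈ C).card ≤ C.card * 2 ^ a := by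
  have h : (C ×ˢ (univ : Finset (Fin a → Bool))).card = C.card * 2 ^ a := by
    rw [card_product]
    simp
  rw [← h]
  refine card_le_card_of_injOn (fun x => (rt x, lf x)) ?_ ?_
  · intro x hx
    have hx' := (mem_filter.1 hx).2
    exact mem_product.2 ⟨hx', mem_univ _⟩
  · intro x _ y _ hxy
    have h1 : lf x = lf y := congrArg Prod.snd hxy
    have h2 : rt x = rt y := congrArg Prod.fst hxy
    funext k
    refine Fin.addCases (fun i => ?_) (fun j => ?_) k
    · exact congrFun h1 i
    · exact congrFun h2 j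

theorem t_UP : S_UP := by
  classical
  rintro a b N M ⟨C, hC, hCN⟩ ⟨C', hC', hCM⟩
  let D : (Fin (a + b) → Bool) → Prop := fun x => lf x ∈ C ∨ rt x ∈ C'
  let G : SimpleGraph (Fin (a + b) → Bool) :=
    { Adj := fun u v => (Q (a + b)).Adj u v ∧ (D u ∨ D v)
      symm := ⟨fun u v h => ⟨h.1.symm, h.2.symm⟩⟩
      loopless := ⟨fun u h => (Q (a + b)).loopless.irrefl u h.1⟩ }
  have hGQ : G ≤ Q (a + b) := fun u v h => h.1
  have hsemi : SemiSat G := by
    refine ⟨hGQ, ?_⟩
    intro x y hxy hnot
    obtain ⟨i, rfl⟩ := adj_flp hxy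
    have hx : ¬ D x := fun h => hnot ⟨hxy, Or.inl h⟩
    obtain ⟨j, hij, hj1, hj2⟩ : ∃ j, i ≠ j ∧ D (flp x j) ∧ D (flp (flp x i) j) := by
      refine Fin.addCases (fun i0 => ?_) (fun i0 => ?_) i
      · obtain ⟨j0, hj0⟩ := cov_flp hC' (x := rt x) (fun h => hx (Or.inr h))
        refine ⟨Fin.natAdd a j0, cast_ne i0 j0, Or.inr ?_, Or.inr ?_⟩
        · rw [rt_r]
          exact hj0
        · rw [rt_r, rt_l]
          exact hj0
      · obtain ⟨j0, hj0⟩ := cov_flp hC (x := lf x) (fun h => hx (Or.inl h))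
        refine ⟨Fin.castAdd b j0, (cast_ne j0 i0).symm, Or.inl ?_, Or.inl ?_⟩
        · rw [lf_l]
          exact hj0
        · rw [lf_l, lf_r]
          exact hj0
    refine ⟨flp (flp x i) j, flp x j, ?_, ?_, ?_, ?_, ?_⟩
    · intro hc
      have h1 := congrFun hc i
      rw [flp_of_ne _ hij, flp_self] at h1
      revert h1
      cases x i <;> simp
    · intro hc
      exact hij (flp_inj x hc)
    · exact ⟨flp_adj _ _, Or.inr hj2⟩
    · refine ⟨?_, Or.inl hj2⟩
      rw [flp_comm]
      exact (flp_adj _ _).symm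
    · exact ⟨(flp_adj _ _).symm, Or.inl hj1⟩
  have hsum := sum_deg hGQ
  have hdeg : ∑ v, deg (fun u i => G.Adj u (flp u i)) v =
      ∑ i, (univ.filter fun v : Fin (a + b) → Bool => D v ∨ D (flp v i)).card := by
    unfold deg
    simp only [card_filter]
    rw [sum_comm]
    refine sum_congr rfl fun i _ => sum_congr rfl fun v _ => ?_
    have : G.Adj v (flp v i) ↔ (D v ∨ D (flp v i)) := ⟨fun h => h.2, fun h => ⟨flp_adj _ _, h⟩⟩
    simp only [this]
  let P1 : (Fin (a + b) → Bool) → Prop := fun x => lf x ∈ C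
  let P2 : (Fin (a + b) → Bool) → Prop := fun x => rt x ∈ C'
  have hsplit : ∀ i, (univ.filter fun v : Fin (a + b) → Bool => D v ∨ D (flp v i)).card ≤
      (univ.filter fun v => P1 v ∨ P1 (flp v i)).card +
        (univ.filter fun v => P2 v ∨ P2 (flp v i)).card := by
    intro i
    refine le_trans (card_le_card ?_) (card_union_le _ _)
    intro v hv
    rw [mem_union, mem_filter, mem_filter]
    rcases (mem_filter.1 hv).2 with (h | h) | (h | h)
    · exact Or.inl ⟨mem_univ _, Or.inl h⟩
    · exact Or.inr ⟨mem_univ _, Or.inl h⟩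
    · exact Or.inl ⟨mem_univ _, Or.inr h⟩
    · exact Or.inr ⟨mem_univ _, Or.inr h⟩
  have hS1 : ∑ i, (univ.filter fun v => P1 v ∨ P1 (flp v i)).card ≤
      (2 * a + b) * (C.card * 2 ^ b) := by
    have hc := card_l (a := a) (b := b) C
    rw [Fin.sum_univ_add]
    have h1 : ∑ i : Fin a, (univ.filter fun v => P1 v ∨ P1 (flp v (Fin.castAdd b i))).card ≤
        ∑ _i : Fin a, 2 * (C.card * 2 ^ b) :=
      sum_le_sum fun i _ => (cnt_two P1 _).trans (Nat.mul_le_mul_left 2 hc)
    have h2 : ∑ j : Fin b, (univ.filter fun v => P1 v ∨ P1 (flp v (Fin.natAdd a j))).card ≤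
        ∑ _j : Fin b, C.card * 2 ^ b := by
      refine sum_le_sum fun j _ => ?_
      rw [cnt_one P1 _ (fun v => by simp only [P1, lf_r])]
      exact hc
    rw [sum_const, card_univ, Fintype.card_fin, smul_eq_mul] at h1 h2
    nlinarith
  have hS2 : ∑ i, (univ.filter fun v => P2 v ∨ P2 (flp v i)).card ≤
      (a + 2 * b) * (C'.card * 2 ^ a) := by
    have hc := card_r (a := a) (b := b) C'
    rw [Fin.sum_univ_add]
    have h1 : ∑ i : Fin a, (univ.filter fun v => P2 v ∨ P2 (flp v (Fin.castAdd b i))).card ≤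
        ∑ _i : Fin a, C'.card * 2 ^ a := by
      refine sum_le_sum fun i _ => ?_
      rw [cnt_one P2 _ (fun v => by simp only [P2, rt_l])]
      exact hc
    have h2 : ∑ j : Fin b, (univ.filter fun v => P2 v ∨ P2 (flp v (Fin.natAdd a j))).card ≤
        ∑ _j : Fin b, 2 * (C'.card * 2 ^ a) :=
      sum_le_sum fun j _ => (cnt_two P2 _).trans (Nat.mul_le_mul_left 2 hc)
    rw [sum_const, card_univ, Fintype.card_fin, smul_eq_mul] at h1 h2
    nlinarith
  have htot : 2 * G.edgeSet.ncard ≤ (2 * a + b) * (N * 2 ^ b) + (a + 2 * b) * (M * 2 ^ a) := by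
    rw [← hsum, hdeg]
    refine (sum_le_sum fun i _ => hsplit i).trans ?_
    rw [sum_add_distrib]
    refine add_le_add (hS1.trans ?_) (hS2.trans ?_)
    · exact Nat.mul_le_mul_left _ (Nat.mul_le_mul_right _ hCN)
    · exact Nat.mul_le_mul_left _ (Nat.mul_le_mul_right _ hCM)
  have hs : sSat (a + b) ≤ G.edgeSet.ncard := Nat.sInf_le ⟨G, hsemi, rfl⟩
  have h1 : 2 * (sSat (a + b) : ℝ) ≤
      (2 * a + b) * (N * 2 ^ b) + (a + 2 * b) * (M * 2 ^ a) := by
    have h2 : 2 * sSat (a + b) ≤ (2 * a + b) * (N * 2 ^ b) + (a + 2 * b) * (M * 2 ^ a) := by omega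
    exact_mod_cast h2
  linarith

end Pool.Agent.U27.KP
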